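import Pool.Agent.helper62.LL.SpecK
import Pool.Agent.helper62.RS.GLC

/-! Row BXR of project LL: the Bowen boxes -/

set_option autoImplicit false

open scoped MatrixGroups ContDiff Topology UpperHalfPlane
open UpperHalfPlane MeasureTheory Filter Set

namespace Pool.Agent.LL

open Pool.Agent.EN (XG MG mkX mkM fl pr)

theorem BXR_t2 (Γ : Subgroup SL(2, ℝ)) (hΓ : QU.SurfaceGroup Γ) : T2Space (XG Γ) := by
  obtain ⟨hLC, hSC, hcpt, -⟩ := RS.GLC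
  have := hLC
  have := hSC
  have hcI : Continuous (fun g : SL(2, ℝ) => g • I) := by fun_prop
  have hPD : ProperlyDiscontinuousSMul Γ SL(2, ℝ) := ⟨by
    intro A B hA hB
    refine (hΓ.discrete ((fun g : SL(2, ℝ) => g • I) '' A ∪ (fun g : SL(2, ℝ) => g • I) '' B)
      ((hA.image hcI).union (hB.image hcI))).subset ?_
    rintro γ ⟨b, ⟨a, ha, rfl⟩, hb⟩
    refine ⟨a • I, Or.inl ⟨a, ha, rfl⟩, Or.inr ⟨γ • a, hb, ?_⟩⟩
    exact mul_smul (γ : SL(2, ℝ)) a I⟩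
  exact inferInstanceAs (T2Space (Quotient (MulAction.orbitRel Γ SL(2, ℝ))))

/-- the representative of the centre may be fixed -/
theorem BXR_fix {Γ : Subgroup SL(2, ℝ)} {r τ : ℝ} {g : SL(2, ℝ)} {y : XG Γ} (hy : y ∈ Bx Γ r τ (mkX Γ g)) :
    ∃ h, bx r τ h ∧ y = mkX Γ (g * h) := by
  obtain ⟨g', h, hh, hq, rfl⟩ := hy
  obtain ⟨γ, hγ⟩ := Quotient.exact hq
  have h2 : (γ : SL(2, ℝ)) * g' = g := hγ
  refine ⟨h, hh, Quotient.sound ⟨γ⁻¹, ?_⟩⟩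
  show ((γ⁻¹ : Γ) : SL(2, ℝ)) * (g * h) = g' * h
  rw [← h2, Subgroup.coe_inv]
  group

theorem BXR_compact (r τ : ℝ) : IsCompact {h : SL(2, ℝ) | bx r τ h} := by
  have hc : IsCompact {M : Matrix (Fin 2) (Fin 2) ℝ | ∀ i, M i ∈ {x : Fin 2 → ℝ | ∀ j, x j ∈
      Icc (if i = j then 1 - r else -τ) (if i = j then 1 + r else τ)}} := by
    refine isCompact_pi_infinite fun i => ?_
    exact isCompact_pi_infinite fun j => isCompact_Icc
  have h1 := (Matrix.SpecialLinearGroup.isClosedEmbedding_val (n := Fin 2) (R := ℝ)).isCompact_preimage hc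
  have h2 : {h : SL(2, ℝ) | bx r τ h} = Subtype.val ⁻¹' {M : Matrix (Fin 2) (Fin 2) ℝ | ∀ i, M i ∈ {x : Fin 2 → ℝ | ∀ j, x j ∈
      Icc (if i = j then 1 - r else -τ) (if i = j then 1 + r else τ)}} := by
    ext h
    simp only [mem_setOf_eq, mem_preimage, Fin.forall_fin_two, mem_Icc, bx, abs_le, if_true,
      Fin.isValue, zero_ne_one, one_ne_zero, if_false]
    constructor
    · rintro ⟨⟨h1, h2⟩, ⟨h3, h4⟩, ⟨h5, h6⟩, ⟨h7, h8⟩⟩
      refine ⟨⟨⟨by linarith, by linarith⟩, ⟨h5, h6⟩⟩, ⟨⟨h7, h8⟩, ⟨by linarith, by linarith⟩⟩⟩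
    · rintro ⟨⟨⟨h1, h2⟩, ⟨h5, h6⟩⟩, ⟨⟨h7, h8⟩, ⟨h3, h4⟩⟩⟩
      exact ⟨⟨by linarith, by linarith⟩, ⟨by linarith, by linarith⟩, ⟨h5, h6⟩, ⟨h7, h8⟩⟩
  rw [h2]
  exact h1

theorem BXR_m3 (A B C : Matrix (Fin 2) (Fin 2) ℝ) (i j : Fin 2) : (A * B * C) i j =
    (A i 0 * B 0 0 + A i 1 * B 1 0) * C 0 j + (A i 0 * B 0 1 + A i 1 * B 1 1) * C 1 j := by
  rw [Matrix.mul_apply, Fin.sum_univ_two, Matrix.mul_apply, Fin.sum_univ_two, Matrix.mul_apply, Fin.sum_univ_two]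

theorem BXR_mul {r τ : ℝ} (h0 : 0 ≤ τ) (h1 : τ ≤ r) (h2 : r ≤ 1) {h h' : SL(2, ℝ)} (hh : bx r τ h) (hh' : bx r τ h') :
    bx (4 * r) (4 * τ) (h⁻¹ * h') := by
  obtain ⟨a1, a2, a3, a4⟩ := hh
  obtain ⟨b1, b2, b3, b4⟩ := hh'
  have e : (h⁻¹ * h').1 = !![h.1 1 1, -h.1 0 1; -h.1 1 0, h.1 0 0] * h'.1 := by
    have : (h⁻¹ : SL(2, ℝ)).1 = !![h.1 1 1, -h.1 0 1; -h.1 1 0, h.1 0 0] := by
      rw [Matrix.SpecialLinearGroup.SL2_inv_expl]
      rfl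
    rw [← this]
    rfl
  have hr : 0 ≤ r := h0.trans h1
  generalize h.1 0 0 = a at *
  generalize h.1 0 1 = b at *
  generalize h.1 1 0 = c at *
  generalize h.1 1 1 = d at *
  have e00 : (h⁻¹ * h').1 0 0 = d * h'.1 0 0 - b * h'.1 1 0 := by
    rw [e]; simp [Matrix.mul_apply, Fin.sum_univ_two]; ring
  have e01 : (h⁻¹ * h').1 0 1 = d * h'.1 0 1 - b * h'.1 1 1 := by
    rw [e]; simp [Matrix.mul_apply, Fin.sum_univ_two]; ring
  have e10 : (h⁻¹ * h').1 1 0 = a * h'.1 1 0 - c * h'.1 0 0 := by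
    rw [e]; simp [Matrix.mul_apply, Fin.sum_univ_two]; ring
  have e11 : (h⁻¹ * h').1 1 1 = a * h'.1 1 1 - c * h'.1 0 1 := by
    rw [e]; simp [Matrix.mul_apply, Fin.sum_univ_two]; ring
  unfold bx
  rw [e00, e01, e10, e11]
  generalize h'.1 0 0 = a' at *
  generalize h'.1 0 1 = b' at *
  generalize h'.1 1 0 = c' at *
  generalize h'.1 1 1 = d' at *
  rw [abs_le] at a1 a2 a3 a4 b1 b2 b3 b4
  have key1 : ∀ x y u v : ℝ, |x - 1| ≤ r → |y - 1| ≤ r → |u| ≤ τ → |v| ≤ τ → |x * y - u * v - 1| ≤ 4 * r := by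
    intro x y u v hx hy hu hv
    have t1 : |(x - 1) * (y - 1)| ≤ r * r := by
      rw [abs_mul]; exact mul_le_mul hx hy (abs_nonneg _) hr
    have t2 : |u * v| ≤ τ * τ := by
      rw [abs_mul]; exact mul_le_mul hu hv (abs_nonneg _) h0
    have t3 : x * y - u * v - 1 = (x - 1) * (y - 1) + (x - 1) + (y - 1) - u * v := by ring
    rw [t3]
    have t4 : |(x - 1) * (y - 1) + (x - 1) + (y - 1) - u * v| ≤ |(x - 1) * (y - 1)| + |x - 1| + |y - 1| + |u * v| := by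
      refine (abs_sub _ _).trans ?_
      have := abs_add_three ((x - 1) * (y - 1)) (x - 1) (y - 1)
      linarith
    have t5 : r * r ≤ r := by nlinarith
    have t6 : τ * τ ≤ r := by nlinarith
    linarith
  have key2 : ∀ x y u v : ℝ, |x - 1| ≤ r → |y - 1| ≤ r → |u| ≤ τ → |v| ≤ τ → |x * u - v * y| ≤ 4 * τ := by
    intro x y u v hx hy hu hv
    have hx2 : |x| ≤ 2 := by
      have := abs_sub_abs_le_abs_sub x 1
      rw [abs_one] at this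
      linarith
    have hy2 : |y| ≤ 2 := by
      have := abs_sub_abs_le_abs_sub y 1
      rw [abs_one] at this
      linarith
    have t1 : |x * u| ≤ 2 * τ := by
      rw [abs_mul]; exact mul_le_mul hx2 hu (abs_nonneg _) (by norm_num)
    have t2 : |v * y| ≤ τ * 2 := by
      rw [abs_mul]; exact mul_le_mul hv hy2 (abs_nonneg _) h0
    have := abs_sub (x * u) (v * y)
    linarith
  rw [← abs_le] at a1 a2 a3 a4 b1 b2 b3 b4
  refine ⟨?_, ?_, ?_, ?_⟩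
  · exact key1 d a' b c' a2 b1 a3 b4
  · exact key1 a d' c b' a1 b2 a4 b3
  · exact key2 d d' b' b a2 b2 b3 a3
  · exact key2 a a' c' c a1 b1 b4 a4

theorem BXR_conj {r τ : ℝ} (h0 : 0 ≤ τ) (t : ℝ) {h : SL(2, ℝ)} (hh : bx r τ h) :
    bx r (Real.exp |t| * τ) ((RS.aM t)⁻¹ * h * RS.aM t) := by
  obtain ⟨a1, a2, a3, a4⟩ := hh
  have e : ((RS.aM t)⁻¹ * h * RS.aM t).1 = !![Real.exp (-(t / 2)), 0; 0, Real.exp (t / 2)] * h.1 *
      !![Real.exp (t / 2), 0; 0, Real.exp (-(t / 2))] := by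
    have : ((RS.aM t)⁻¹ : SL(2, ℝ)).1 = !![Real.exp (-(t / 2)), 0; 0, Real.exp (t / 2)] := by
      rw [Matrix.SpecialLinearGroup.SL2_inv_expl]
      simp [RS.aM]
      rfl
    rw [← this]
    rfl
  have m1 : Real.exp (-(t / 2)) * Real.exp (t / 2) = 1 := by
    rw [← Real.exp_add]; simp
  have m2 : Real.exp (-(t / 2)) * Real.exp (-(t / 2)) = Real.exp (-t) := by
    rw [← Real.exp_add]; ring_nf
  have m3 : Real.exp (t / 2) * Real.exp (t / 2) = Real.exp t := by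
    rw [← Real.exp_add]; ring_nf
  have e00 : ((RS.aM t)⁻¹ * h * RS.aM t).1 0 0 = h.1 0 0 := by
    rw [e, BXR_m3]
    show (Real.exp (-(t / 2)) * h.1 0 0 + 0 * h.1 1 0) * Real.exp (t / 2) +
      (Real.exp (-(t / 2)) * h.1 0 1 + 0 * h.1 1 1) * 0 = h.1 0 0
    linear_combination (h.1 0 0) * m1
  have e01 : ((RS.aM t)⁻¹ * h * RS.aM t).1 0 1 = Real.exp (-t) * h.1 0 1 := by
    rw [e, BXR_m3]
    show (Real.exp (-(t / 2)) * h.1 0 0 + 0 * h.1 1 0) * 0 +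
      (Real.exp (-(t / 2)) * h.1 0 1 + 0 * h.1 1 1) * Real.exp (-(t / 2)) = Real.exp (-t) * h.1 0 1
    linear_combination (h.1 0 1) * m2
  have e10 : ((RS.aM t)⁻¹ * h * RS.aM t).1 1 0 = Real.exp t * h.1 1 0 := by
    rw [e, BXR_m3]
    show (0 * h.1 0 0 + Real.exp (t / 2) * h.1 1 0) * Real.exp (t / 2) +
      (0 * h.1 0 1 + Real.exp (t / 2) * h.1 1 1) * 0 = Real.exp t * h.1 1 0
    linear_combination (h.1 1 0) * m3
  have e11 : ((RS.aM t)⁻¹ * h * RS.aM t).1 1 1 = h.1 1 1 := by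
    rw [e, BXR_m3]
    show (0 * h.1 0 0 + Real.exp (t / 2) * h.1 1 0) * 0 +
      (0 * h.1 0 1 + Real.exp (t / 2) * h.1 1 1) * Real.exp (-(t / 2)) = h.1 1 1
    linear_combination (h.1 1 1) * m1
  refine ⟨by rw [e00]; exact a1, by rw [e11]; exact a2, ?_, ?_⟩
  · rw [e01, abs_mul, abs_of_pos (Real.exp_pos _)]
    exact mul_le_mul (Real.exp_le_exp.2 (neg_le_abs t)) a3 (abs_nonneg _) (Real.exp_pos _).le
  · rw [e10, abs_mul, abs_of_pos (Real.exp_pos _)]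
    exact mul_le_mul (Real.exp_le_exp.2 (le_abs_self t)) a4 (abs_nonneg _) (Real.exp_pos _).le

theorem BXR_proof : BXR_stmt := by
  intro Γ r τ q hΓ h0 h1 h2
  obtain ⟨g, rfl⟩ : ∃ g, mkX Γ g = q := Quotient.mk_surjective q
  refine ⟨?_, ?_, ?_⟩
  · intro y y' hy hy'
    obtain ⟨h, hh, rfl⟩ := BXR_fix hy
    obtain ⟨h', hh', rfl⟩ := BXR_fix hy'
    refine ⟨g * h, h⁻¹ * h', BXR_mul h0 h1 h2 hh hh', rfl, ?_⟩
    rw [mul_assoc, mul_inv_cancel_left]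
  · intro t y hy
    obtain ⟨h, hh, rfl⟩ := BXR_fix hy
    refine ⟨g * RS.aM t, (RS.aM t)⁻¹ * h * RS.aM t, BXR_conj h0 t hh, rfl, ?_⟩
    have e : g * RS.aM t * ((RS.aM t)⁻¹ * h * RS.aM t) = g * h * RS.aM t := by group
    rw [e]
    rfl
  · have := BXR_t2 Γ hΓ
    have e : Bx Γ r τ (mkX Γ g) = (fun h => mkX Γ (g * h)) '' {h : SL(2, ℝ) | bx r τ h} := by
      ext y
      constructor
      · intro hy
        obtain ⟨h, hh, rfl⟩ := BXR_fix hy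
        exact ⟨h, hh, rfl⟩
      · rintro ⟨h, hh, rfl⟩
        exact ⟨g, h, hh, rfl, rfl⟩
    rw [e]
    have hc : Continuous (mkX Γ) := continuous_quotient_mk'
    exact ((BXR_compact r τ).image (hc.comp (continuous_const.mul continuous_id))).isClosed

end Pool.Agent.LL
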